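import Mathlib

/-!
# Multiples of `252` as values of `p₁(x, y, z) = z (x (5 y - 1) - y) - x`: how far finitely many
# identities reach

If two of the variables are fixed then the values of `p₁` form (the positive part of) a residue class
modulo one of the numbers `x (5 y - 1) - y`, `z (5 y - 1) - 1`, `z (5 x - 1)`.  We show that finitely many of
these classes contain all members of any given arithmetic progression, up to a set of residue classes of
density less than `ε`; for the multiples of `252`, finitely many classes are never enough.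

Proof of the first part: `y = 1` gives `p₁(x, 1, z) = x (4 z - 1) - z`, so `q` is a value as soon as `4 q + 1`
has a prime factor `p = 4 z - 1`.  The sum of the reciprocals of these primes diverges (this follows from
the lower bound in Mathlib for the `L`-series of a residue class), so the proportion `∏ (1 - 1 / p)` of the
residue classes without such a prime factor tends to zero.
-/

set_option autoImplicit false

namespace Pool.Agent.Results.MP_9aa437_nt.FinitelyManyIdentities

open Finset

/-- The polynomial of the problem. -/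
def p₁ (x y z : ℤ) : ℤ := z * (x * (5 * y - 1) - y) - x

section analytic

open ArithmeticFunction ArithmeticFunction.vonMangoldt

/-- the reciprocals of the primes `≡ 3` modulo `4` -/
noncomputable def rec3 (n : ℕ) : ℝ := if n.Prime ∧ n % 4 = 3 then (1 : ℝ) / n else 0

theorem rec3_nonneg (n : ℕ) : 0 ≤ rec3 n := by
  unfold rec3
  split_ifs
  · positivity
  · exact le_rfl

theorem term_bound (N n : ℕ) {x : ℝ} (hx : 1 < x) :
    residueClass (3 : ZMod 4) n / (n : ℝ) ^ x ≤
      (if n.Prime then 0 else residueClass (3 : ZMod 4) n) / n +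
        (if n ∈ range N then residueClass (3 : ZMod 4) n else 0) +
        (rec3 n - if n ∈ range N then rec3 n else 0) / (x - 1) := by
  have hx1 : 0 < x - 1 := by linarith
  have h0 : 0 ≤ residueClass (3 : ZMod 4) n := residueClass_nonneg _ n
  have hr := rec3_nonneg n
  have t1 : 0 ≤ (if n.Prime then 0 else residueClass (3 : ZMod 4) n) / (n : ℝ) := by
    split_ifs
    · simp
    · positivity
  have t2 : 0 ≤ (if n ∈ range N then residueClass (3 : ZMod 4) n else 0) := by
    split_ifs
    · exact h0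
    · exact le_rfl
  have t3 : 0 ≤ (rec3 n - if n ∈ range N then rec3 n else 0) / (x - 1) := by
    apply div_nonneg _ hx1.le
    split_ifs
    · simp
    · simpa using hr
  rcases Nat.eq_zero_or_pos n with rfl | hn
  · rw [residueClass_apply_zero, zero_div]
    positivity
  have hn1 : (1 : ℝ) ≤ n := by exact_mod_cast hn
  have hn0 : (0 : ℝ) < n := by linarith
  have hnx : (n : ℝ) ≤ (n : ℝ) ^ x := by
    conv_lhs => rw [← Real.rpow_one (n : ℝ)]
    exact Real.rpow_le_rpow_of_exponent_le hn1 hx.le
  by_cases hp : n.Prime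
  · by_cases hN : n ∈ range N
    · have : residueClass (3 : ZMod 4) n / (n : ℝ) ^ x ≤ residueClass (3 : ZMod 4) n :=
        div_le_self h0 (hn1.trans hnx)
      simp only [if_pos hN] at t2 t3 ⊢
      linarith
    · rw [if_neg hN, if_neg hN, if_pos hp, zero_div, zero_add, zero_add, sub_zero]
      by_cases h3 : n % 4 = 3
      · have e1 : residueClass (3 : ZMod 4) n = Real.log n := by
          rw [residueClass, Set.indicator_of_mem]
          · exact vonMangoldt_apply_prime hp
          · show ((n : ℕ) : ZMod 4) = 3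
            have := (ZMod.natCast_eq_natCast_iff' n 3 4).2 (by omega)
            exact_mod_cast this
        have e2 : rec3 n = 1 / n := by rw [rec3, if_pos ⟨hp, h3⟩]
        rw [e1, e2]
        have e3 : Real.log n ≤ (n : ℝ) ^ (x - 1) / (x - 1) := Real.log_le_rpow_div hn0.le hx1
        have e4 : (n : ℝ) ^ x = (n : ℝ) ^ (x - 1) * n := by
          rw [← Real.rpow_add_one hn0.ne']
          ring_nf
        have e5 : 0 < (n : ℝ) ^ (x - 1) := Real.rpow_pos_of_pos hn0 _
        calc Real.log n / (n : ℝ) ^ x ≤ ((n : ℝ) ^ (x - 1) / (x - 1)) / (n : ℝ) ^ x :=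
              div_le_div_of_nonneg_right e3 (by linarith)
          _ = 1 / n / (x - 1) := by rw [e4]; field_simp
      · have e1 : residueClass (3 : ZMod 4) n = 0 := by
          rw [residueClass, Set.indicator_of_notMem]
          intro h
          apply h3
          have h' : ((n : ℕ) : ZMod 4) = ((3 : ℕ) : ZMod 4) := by exact_mod_cast h
          have := (ZMod.natCast_eq_natCast_iff' n 3 4).1 h'
          omega
        rw [e1, zero_div]
        exact div_nonneg hr hx1.le
  · have : residueClass (3 : ZMod 4) n / (n : ℝ) ^ x ≤ residueClass (3 : ZMod 4) n / n :=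
      div_le_div_of_nonneg_left h0 hn0 hnx
    rw [if_neg hp] at t1 ⊢
    linarith

theorem not_summable_rec3 : ¬ Summable rec3 := by
  intro H
  have ha : IsUnit (3 : ZMod 4) := by decide
  obtain ⟨C, hC⟩ := LSeries_residueClass_lower_bound ha
  obtain ⟨N, hN⟩ : ∃ N : ℕ, ∑' n, rec3 n - ∑ n ∈ range N, rec3 n < 1 / 8 := by
    have h1 := H.hasSum.tendsto_sum_nat
    have h2 : ∀ᶠ N : ℕ in Filter.atTop, ∑' n, rec3 n - 1 / 8 < ∑ n ∈ range N, rec3 n :=
      h1.eventually (lt_mem_nhds (by linarith))
    obtain ⟨N, hN⟩ := h2.exists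
    exact ⟨N, by linarith⟩
  have hg := summable_residueClass_non_primes_div (3 : ZMod 4)
  have hu : HasSum (fun n : ℕ => if n ∈ range N then residueClass (3 : ZMod 4) n else 0)
      (∑ n ∈ range N, residueClass (3 : ZMod 4) n) := by
    have h1 : HasSum (fun n : ℕ => if n ∈ range N then residueClass (3 : ZMod 4) n else 0)
        (∑ n ∈ range N, if n ∈ range N then residueClass (3 : ZMod 4) n else 0) :=
      hasSum_sum_of_ne_finset_zero (fun b hb => if_neg hb)
    have e : ∑ n ∈ range N, (if n ∈ range N then residueClass (3 : ZMod 4) n else 0) =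
        ∑ n ∈ range N, residueClass (3 : ZMod 4) n := sum_congr rfl fun n hn => if_pos hn
    rw [e] at h1
    exact h1
  have hv : HasSum (fun n : ℕ => if n ∈ range N then rec3 n else 0) (∑ n ∈ range N, rec3 n) := by
    have h1 : HasSum (fun n : ℕ => if n ∈ range N then rec3 n else 0)
        (∑ n ∈ range N, if n ∈ range N then rec3 n else 0) :=
      hasSum_sum_of_ne_finset_zero (fun b hb => if_neg hb)
    have e : ∑ n ∈ range N, (if n ∈ range N then rec3 n else 0) = ∑ n ∈ range N, rec3 n :=
      sum_congr rfl fun n hn => if_pos hn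
    rw [e] at h1
    exact h1
  set G : ℝ := ∑' n : ℕ, (if n.Prime then 0 else residueClass (3 : ZMod 4) n) / (n : ℝ) with hG
  set U : ℝ := ∑ n ∈ range N, residueClass (3 : ZMod 4) n with hU
  have key : ∀ x : ℝ, 1 < x → x ≤ 2 → (1 / 2 : ℝ) / (x - 1) - C ≤ G + U + (1 / 8) / (x - 1) := by
    intro x hx hx2
    have hx1 : 0 < x - 1 := by linarith
    have h1 := hC (x := x) ⟨hx, hx2⟩
    have hφ : ((Nat.totient 4 : ℕ) : ℝ)⁻¹ = 1 / 2 := by
      have : Nat.totient 4 = 2 := by decide
      rw [this]; norm_num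
    rw [hφ] at h1
    refine h1.trans ?_
    have hs : HasSum (fun n : ℕ => (if n.Prime then 0 else residueClass (3 : ZMod 4) n) / (n : ℝ) +
        (if n ∈ range N then residueClass (3 : ZMod 4) n else 0) +
        (rec3 n - if n ∈ range N then rec3 n else 0) / (x - 1))
        (G + U + (∑' n, rec3 n - ∑ n ∈ range N, rec3 n) / (x - 1)) :=
      (hg.hasSum.add hu).add ((H.hasSum.sub hv).div_const _)
    have hl : Summable fun n : ℕ => residueClass (3 : ZMod 4) n / (n : ℝ) ^ x :=
      LSeries.summable_real_of_abscissaOfAbsConv_lt <|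
        (abscissaOfAbsConv_residueClass_le_one (3 : ZMod 4)).trans_lt <| mod_cast hx
    have h2 := hasSum_le (fun n => term_bound N n hx) hl.hasSum hs
    refine h2.trans ?_
    have h3 : (∑' n, rec3 n - ∑ n ∈ range N, rec3 n) / (x - 1) ≤ (1 / 8) / (x - 1) :=
      div_le_div_of_nonneg_right hN.le hx1.le
    linarith
  set K : ℝ := |G + U + C| + 1 with hK
  have hK0 : 0 < K := by positivity
  have ht : 0 < 3 / (8 * (K + 1)) := by positivity
  have ht1 : 3 / (8 * (K + 1)) ≤ 1 := by
    rw [div_le_one (by positivity)]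
    have : 1 ≤ K := by rw [hK]; linarith [abs_nonneg (G + U + C)]
    linarith
  have h4 := key (1 + 3 / (8 * (K + 1))) (by linarith) (by linarith)
  rw [add_sub_cancel_left] at h4
  have e1 : (1 / 2 : ℝ) / (3 / (8 * (K + 1))) - (1 / 8) / (3 / (8 * (K + 1))) = K + 1 := by
    field_simp
    ring
  have h5 := le_abs_self (G + U + C)
  linarith

end analytic

/-- Finitely many primes `≡ 3` modulo `4`, larger than `m`, with small product `∏ (1 - 1 / p)`. -/
theorem exists_primes (m : ℕ) {ε : ℝ} (hε : 0 < ε) :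
    ∃ P : Finset ℕ, (∀ p ∈ P, p.Prime ∧ p % 4 = 3 ∧ m < p) ∧ ∏ p ∈ P, (1 - 1 / (p : ℝ)) ≤ ε := by
  have h1 := (not_summable_iff_tendsto_nat_atTop_of_nonneg rec3_nonneg).1 not_summable_rec3
  obtain ⟨n, hn⟩ := (h1.eventually_ge_atTop (-Real.log ε + ∑ i ∈ range (m + 1), rec3 i)).exists
  set P : Finset ℕ := (range n).filter fun p => p.Prime ∧ p % 4 = 3 ∧ m < p with hP
  refine ⟨P, fun p hp => (mem_filter.1 hp).2, ?_⟩
  have h2 : ∑ i ∈ range n, rec3 i ≤ ∑ i ∈ range (m + 1), rec3 i + ∑ p ∈ P, 1 / (p : ℝ) := by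
    have e1 : ∑ i ∈ range n, rec3 i ≤ ∑ i ∈ range (m + 1) ∪ P, rec3 i := by
      have e0 : ∑ i ∈ range n, rec3 i = ∑ i ∈ (range n).filter (fun i => rec3 i ≠ 0), rec3 i :=
        (sum_filter_ne_zero _).symm
      rw [e0]
      apply sum_le_sum_of_subset_of_nonneg
      · intro i hi
        rw [mem_filter] at hi
        rw [mem_union]
        by_cases him : i < m + 1
        · exact Or.inl (mem_range.2 him)
        · refine Or.inr (mem_filter.2 ⟨hi.1, ?_⟩)
          have h3 : i.Prime ∧ i % 4 = 3 := by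
            by_contra h
            exact hi.2 (by rw [rec3, if_neg h])
          exact ⟨h3.1, h3.2, by omega⟩
      · intro i _ _
        exact rec3_nonneg i
    have e2 := sum_union_inter (f := rec3) (s₁ := range (m + 1)) (s₂ := P)
    have e3 : 0 ≤ ∑ i ∈ range (m + 1) ∩ P, rec3 i := sum_nonneg fun i _ => rec3_nonneg i
    have e4 : ∑ p ∈ P, rec3 p = ∑ p ∈ P, 1 / (p : ℝ) := by
      apply sum_congr rfl
      intro p hp
      have := (mem_filter.1 hp).2
      rw [rec3, if_pos ⟨this.1, this.2.1⟩]
    linarith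
  have h3 : ∏ p ∈ P, (1 - 1 / (p : ℝ)) ≤ Real.exp (-∑ p ∈ P, 1 / (p : ℝ)) := by
    rw [← sum_neg_distrib, Real.exp_sum]
    apply prod_le_prod
    · intro p hp
      have hp1 := (mem_filter.1 hp).2.1.one_lt
      have : (1 : ℝ) < p := by exact_mod_cast hp1
      rw [sub_nonneg, div_le_one (by linarith)]
      exact this.le
    · intro p _
      exact Real.one_sub_le_exp_neg _
  refine h3.trans ?_
  calc Real.exp (-∑ p ∈ P, 1 / (p : ℝ)) ≤ Real.exp (Real.log ε) := by
        apply Real.exp_le_exp.2
        linarith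
    _ = ε := Real.exp_log hε

/-- The residue classes `r` modulo `M = ∏ p` for which `4 (m r + a) + 1` is prime to `M`: their number
is at most `φ(M)`. -/
theorem card_le (m a M : ℕ) (hM : 0 < M) (hc : Nat.Coprime M (4 * m)) :
    ((range M).filter fun r => Nat.Coprime M (4 * (m * r + a) + 1)).card ≤ M.totient := by
  rw [Nat.totient_eq_card_coprime]
  apply card_le_card_of_injOn (fun r => (4 * (m * r + a) + 1) % M)
  · intro r hr
    have h := (mem_filter.1 (mem_coe.1 hr)).2
    refine mem_coe.2 (mem_filter.2 ⟨mem_range.2 (Nat.mod_lt _ hM), ?_⟩)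
    show Nat.Coprime M ((4 * (m * r + a) + 1) % M)
    rw [Nat.coprime_comm, Nat.Coprime, (Nat.mod_modEq _ M).gcd_eq]
    exact h.symm
  · intro r hr r' hr' h
    have h1 := mem_range.1 (mem_filter.1 (mem_coe.1 hr)).1
    have h2 := mem_range.1 (mem_filter.1 (mem_coe.1 hr')).1
    have h3 : 4 * (m * r + a) + 1 ≡ 4 * (m * r' + a) + 1 [MOD M] := h
    have h4 : 4 * m * r + (4 * a + 1) ≡ 4 * m * r' + (4 * a + 1) [MOD M] := by
      have e : ∀ t : ℕ, 4 * m * t + (4 * a + 1) = 4 * (m * t + a) + 1 := fun t => by ring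
      rw [e, e]
      exact h3
    have h5 : r ≡ r' [MOD M] :=
      Nat.ModEq.cancel_left_of_coprime hc (Nat.ModEq.add_right_cancel' _ h4)
    exact Nat.ModEq.eq_of_lt_of_lt h5 h1 h2

/-- If `4 q + 1` has a divisor `p ≡ 3` modulo `4` then `q` is a value with `y = 1`, `4 z - 1 = p`. -/
theorem value_of_dvd {p q : ℕ} (hp : p % 4 = 3) (h : p ∣ 4 * q + 1) :
    ∃ x z : ℤ, 0 < x ∧ 0 < z ∧ z ≤ p ∧ p₁ x 1 z = q := by
  obtain ⟨k, rfl⟩ : ∃ k, p = 4 * k + 3 := ⟨p / 4, by omega⟩
  have h1 : 4 * k + 3 ∣ q + (k + 1) := by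
    have h2 : 4 * k + 3 ∣ 4 * (q + (k + 1)) := by
      have e : 4 * (q + (k + 1)) = (4 * q + 1) + (4 * k + 3) := by ring
      rw [e]
      exact dvd_add h (dvd_refl _)
    refine Nat.Coprime.dvd_of_dvd_mul_left ?_ h2
    have : Nat.Coprime (4 * k + 3) 4 := by
      rw [Nat.coprime_comm, Nat.Coprime, Nat.gcd_rec]
      have : (4 * k + 3) % 4 = 3 := by omega
      rw [this]
      norm_num
    exact this
  obtain ⟨x, hx⟩ := h1
  have hx0 : 0 < x := by
    rcases Nat.eq_zero_or_pos x with rfl | hx0
    · omega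
    · exact hx0
  refine ⟨x, k + 1, by exact_mod_cast hx0, by positivity, by push_cast; linarith, ?_⟩
  have h3 : ((q : ℤ) + (k + 1)) = (4 * k + 3) * x := by exact_mod_cast hx
  unfold p₁
  linear_combination -h3

/-- The number of the elements of an interval of length `X` in the classes of `R` modulo `M`. -/
theorem count_le (M : ℕ) (hM : 0 < M) (R : Finset ℕ) (Y X : ℕ) :
    ((Ioc Y (Y + X)).filter fun l => l % M ∈ R).card ≤ (X / M + 2) * R.card := by
  have h1 : ((Ioc Y (Y + X)).filter fun l => l % M ∈ R).card ≤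
      (Icc (Y / M) (Y / M + X / M + 1) ×ˢ R).card := by
    apply card_le_card_of_injOn (fun l => (l / M, l % M))
    · intro l hl
      obtain ⟨h1, h2⟩ := mem_filter.1 (mem_coe.1 hl)
      obtain ⟨h3, h4⟩ := mem_Ioc.1 h1
      refine mem_coe.2 (mem_product.2 ⟨mem_Icc.2 ⟨Nat.div_le_div_right h3.le, ?_⟩, h2⟩)
      apply Nat.lt_succ_iff.1
      apply Nat.div_lt_of_lt_mul
      have h5 := Nat.lt_mul_div_succ Y hM
      have h6 := Nat.lt_mul_div_succ X hM
      have e : M * (Y / M + X / M + 1).succ = M * (Y / M + 1) + M * (X / M + 1) := by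
        rw [Nat.succ_eq_add_one]; ring
      rw [e]
      omega
    · intro l _ l' _ h
      have h1 : l / M = l' / M := congrArg Prod.fst h
      have h2 : l % M = l' % M := congrArg Prod.snd h
      rw [← Nat.div_add_mod l M, ← Nat.div_add_mod l' M, h1, h2]
  refine h1.trans ?_
  rw [card_product, Nat.card_Icc]
  apply Nat.mul_le_mul_right
  generalize Y / M = u
  generalize X / M = v
  omega

/-- `q` is a value of the polynomial at a triple of positive integers. -/
def IsValue (q : ℤ) : Prop := ∃ x y z : ℤ, 0 < x ∧ 0 < y ∧ 0 < z ∧ p₁ x y z = q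

open Classical in
/-- **Almost all multiples of `252`, and how far finitely many identities reach.**
(1) For all `m ≥ 1`, `a ≥ 0` and `ε > 0` there are `M ≥ 1` and a set `R` of at most `ε M` residues modulo `M`
such that every `q = m l + a` with `l mod M` not in `R` is a value `p₁(x, 1, z)`, and even with one of
the finitely many `z ≤ M`.
(2) For every `ε > 0` and all `X ≥ X₀(ε)`, every interval of `X` consecutive numbers `l` contains at most `ε X`
numbers `l` for which `252 l` is not a value.
(3) For every `B` there is an `l ≥ 1` such that for all representations `252 l = p₁(x, y, z)` the moduli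
`x (5 y - 1) - y`, `z (5 y - 1) - 1`, `z (5 x - 1)` of the three residue classes of values which are obtained
by fixing two of the variables are larger than `B`. -/
theorem result :
    (∀ m a : ℕ, 0 < m → ∀ ε : ℝ, 0 < ε → ∃ (M : ℕ) (R : Finset ℕ), 0 < M ∧ R ⊆ range M ∧
      (R.card : ℝ) ≤ ε * M ∧ ∀ l : ℕ, l % M ∉ R →
      ∃ x z : ℤ, 0 < x ∧ 0 < z ∧ z ≤ M ∧ p₁ x 1 z = m * l + a) ∧
    (∀ ε : ℝ, 0 < ε → ∃ X₀ : ℕ, ∀ X Y : ℕ, X₀ ≤ X →
      (((Ioc Y (Y + X)).filter fun l : ℕ => ¬ IsValue (252 * l)).card : ℝ) ≤ ε * X) ∧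
    (∀ B : ℕ, ∃ l : ℕ, 0 < l ∧ ∀ x y z : ℤ, 0 < x → 0 < y → 0 < z → p₁ x y z = 252 * l →
      B < x * (5 * y - 1) - y ∧ B < z * (5 * y - 1) - 1 ∧ B < z * (5 * x - 1)) := by
  have part1 : ∀ m a : ℕ, 0 < m → ∀ ε : ℝ, 0 < ε → ∃ (M : ℕ) (R : Finset ℕ), 0 < M ∧ R ⊆ range M ∧
      (R.card : ℝ) ≤ ε * M ∧ ∀ l : ℕ, l % M ∉ R →
      ∃ x z : ℤ, 0 < x ∧ 0 < z ∧ z ≤ M ∧ p₁ x 1 z = m * l + a := by
    intro m a hm ε hε
    obtain ⟨P, hP, hprod⟩ := exists_primes m hε
    set M : ℕ := ∏ p ∈ P, p with hMdef
    have hM : 0 < M := prod_pos fun p hp => (hP p hp).1.pos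
    have hc : Nat.Coprime M (4 * m) := by
      apply Nat.Coprime.prod_left
      intro p hp
      obtain ⟨h1, h2, h3⟩ := hP p hp
      apply (Nat.Prime.coprime_iff_not_dvd h1).2
      intro h
      rcases (Nat.Prime.dvd_mul h1).1 h with h | h
      · have h4 : p ≤ 4 := Nat.le_of_dvd (by norm_num) h
        interval_cases p <;> omega
      · exact absurd (Nat.le_of_dvd hm h) (by omega)
    have hpf : M.primeFactors = P := Nat.primeFactors_prod fun p hp => (hP p hp).1
    refine ⟨M, (range M).filter fun r => Nat.Coprime M (4 * (m * r + a) + 1), hM, filter_subset _ _,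
      ?_, ?_⟩
    · have h1 : (((range M).filter fun r => Nat.Coprime M (4 * (m * r + a) + 1)).card : ℝ) ≤
          (M.totient : ℝ) := by exact_mod_cast card_le m a M hM hc
      have h2 : (M.totient : ℝ) = M * ∏ p ∈ P, (1 - 1 / (p : ℝ)) := by
        have h3 := Nat.totient_eq_mul_prod_factors M
        rw [hpf] at h3
        have h4 : ((M.totient : ℚ) : ℝ) = (((M : ℚ) * ∏ p ∈ P, (1 - (p : ℚ)⁻¹) : ℚ) : ℝ) := by
          rw [h3]
        push_cast at h4
        rw [h4]
        simp only [one_div]
      rw [h2] at h1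
      refine h1.trans ?_
      rw [mul_comm]
      exact mul_le_mul_of_nonneg_right hprod (Nat.cast_nonneg _)
    · intro l hl
      rw [mem_filter, not_and] at hl
      have h1 := hl (mem_range.2 (Nat.mod_lt _ hM))
      obtain ⟨p, hp, hpM, hpd⟩ := Nat.Prime.not_coprime_iff_dvd.1 h1
      have hpP : p ∈ P := by
        rw [← hpf]
        exact Nat.mem_primeFactors.2 ⟨hp, hpM, hM.ne'⟩
      have h2 : p ∣ 4 * (m * l + a) + 1 := by
        have h3 : 4 * (m * (l % M) + a) + 1 ≡ 4 * (m * l + a) + 1 [MOD p] := by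
          have h4 : l % M ≡ l [MOD p] := (Nat.mod_modEq l M).of_dvd hpM
          exact (((h4.mul_left m).add_right a).mul_left 4).add_right 1
        exact (Nat.ModEq.dvd_iff h3 (dvd_refl p)).1 hpd
      obtain ⟨x, z, hx, hz, hzp, h⟩ := value_of_dvd (hP p hpP).2.1 h2
      have hpM' : (p : ℤ) ≤ M := by exact_mod_cast Nat.le_of_dvd hM hpM
      exact ⟨x, z, hx, hz, hzp.trans hpM', by rw [h]; push_cast; ring⟩
  refine ⟨part1, ?_, ?_⟩
  · intro ε hε
    obtain ⟨M, R, hM, -, hR, h⟩ := part1 252 0 (by norm_num) (ε / 2) (by positivity)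
    refine ⟨2 * M, fun X Y hX => ?_⟩
    have hM' : (0 : ℝ) < M := by exact_mod_cast hM
    have h1 : ((Ioc Y (Y + X)).filter fun l : ℕ => ¬ IsValue (252 * l)).card ≤
        ((Ioc Y (Y + X)).filter fun l => l % M ∈ R).card := by
      apply card_le_card
      intro l hl
      rw [mem_filter] at hl ⊢
      refine ⟨hl.1, ?_⟩
      by_contra hcon
      obtain ⟨x, z, hx, hz, -, hv⟩ := h l hcon
      exact hl.2 ⟨x, 1, z, hx, one_pos, hz, by rw [hv]; push_cast; ring⟩
    have h2 : (((Ioc Y (Y + X)).filter fun l : ℕ => ¬ IsValue (252 * l)).card : ℝ) ≤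
        ((X / M : ℕ) + 2 : ℝ) * R.card := by
      exact_mod_cast h1.trans (count_le M hM R Y X)
    have h3 : ((X / M : ℕ) : ℝ) ≤ X / M := Nat.cast_div_le
    have h4 : (2 * M : ℝ) ≤ X := by exact_mod_cast hX
    calc _ ≤ _ := h2
      _ ≤ ((X : ℝ) / M + 2) * (ε / 2 * M) := by
        apply mul_le_mul _ hR (Nat.cast_nonneg _) (by positivity)
        linarith
      _ = ε / 2 * X + ε * M := by field_simp
      _ ≤ ε * X := by nlinarith
  · intro B
    refine ⟨B.factorial, B.factorial_pos, ?_⟩
    intro x y z hx hy hz h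
    unfold p₁ at h
    have hdvd : ∀ D : ℤ, 0 < D → D ≤ B → D ∣ 252 * (B.factorial : ℤ) := by
      intro D hD hDB
      lift D to ℕ using hD.le
      have h1 : D ∣ B.factorial := Nat.dvd_factorial (by exact_mod_cast hD) (by exact_mod_cast hDB)
      exact Dvd.dvd.mul_left (by exact_mod_cast h1) _
    refine ⟨?_, ?_, ?_⟩
    · by_contra hcon
      push Not at hcon
      have h1 : x < x * (5 * y - 1) - y := by nlinarith
      have h2 := hdvd _ (by linarith) hcon
      rw [← h] at h2
      have h3 : x * (5 * y - 1) - y ∣ x := by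
        have h4 : x * (5 * y - 1) - y ∣ z * (x * (5 * y - 1) - y) := Dvd.intro_left _ rfl
        have h5 := dvd_sub h4 h2
        have e : z * (x * (5 * y - 1) - y) - (z * (x * (5 * y - 1) - y) - x) = x := by ring
        rwa [e] at h5
      exact absurd (Int.le_of_dvd hx h3) (by linarith)
    · by_contra hcon
      push Not at hcon
      have h1 : y * z < z * (5 * y - 1) - 1 := by nlinarith
      have hyz : 0 < y * z := mul_pos hy hz
      have h2 := hdvd _ (by linarith) hcon
      rw [← h] at h2
      have h3 : z * (5 * y - 1) - 1 ∣ y * z := by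
        have h4 : z * (5 * y - 1) - 1 ∣ x * (z * (5 * y - 1) - 1) := Dvd.intro_left _ rfl
        have h5 := dvd_sub h4 h2
        have e : x * (z * (5 * y - 1) - 1) - (z * (x * (5 * y - 1) - y) - x) = y * z := by ring
        rwa [e] at h5
      exact absurd (Int.le_of_dvd hyz h3) (by linarith)
    · by_contra hcon
      push Not at hcon
      have hxz : 0 < x * (z + 1) := by positivity
      have h1 : x * (z + 1) < z * (5 * x - 1) := by nlinarith
      have h2 := hdvd _ (by linarith) hcon
      rw [← h] at h2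
      have h3 : z * (5 * x - 1) ∣ x * (z + 1) := by
        have h4 : z * (5 * x - 1) ∣ y * (z * (5 * x - 1)) := Dvd.intro_left _ rfl
        have h5 := dvd_sub h4 h2
        have e : y * (z * (5 * x - 1)) - (z * (x * (5 * y - 1) - y) - x) = x * (z + 1) := by ring
        rwa [e] at h5
      exact absurd (Int.le_of_dvd hxz h3) (by linarith)

end Pool.Agent.Results.MP_9aa437_nt.FinitelyManyIdentities
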